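import Pool.Agent.L7h62.SQ.Stm3

/-! # Project SQ, third stage, part GEN: genus theory for a quadratic extension -/

set_option autoImplicit false
set_option linter.deprecated false

namespace Pool.Agent.L7h96.SQ

open Module NumberField IsDedekindDomain
open scoped nonZeroDivisors
open Pool.Agent.TeamU (Over Unr exists_conj b2_exists_under)
open Pool.Agent.L7h62.SQ

variable {F H : Type} [Field F] [NumberField F] [Field H] [NumberField H] [Algebra F H]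

/-- a ramified prime of a quadratic extension -/
theorem ram (h2 : finrank F H = 2) (P : HeightOneSpectrum (𝓞 H)) (v : HeightOneSpectrum (𝓞 F))
    (hv : Over P v) (hU : ¬ Unr F P) [P.asIdeal.LiesOver v.asIdeal] :
    v.asIdeal.ramificationIdx' P.asIdeal = 2 ∧
      ∀ Q : Ideal (𝓞 H), Q.IsPrime → Q.LiesOver v.asIdeal → Q = P.asIdeal := by
  classical
  have hmax : v.asIdeal.IsMaximal := v.isMaximal
  have he0 : v.asIdeal.ramificationIdx' P.asIdeal ≠ 0 :=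
    Ideal.IsDedekindDomain.ramificationIdx'_ne_zero_of_liesOver P.asIdeal v.ne_bot
  have he1 : v.asIdeal.ramificationIdx' P.asIdeal ≠ 1 := by
    intro he
    apply hU
    intro w hw a
    have hwv : w = v := HeightOneSpectrum.ext (hw.symm.trans hv)
    subst hwv
    have := HeightOneSpectrum.valuation_liesOver (K := F) H w P a
    rw [he, pow_one] at this
    exact this.symm
  have hsum := Ideal.sum_ramification_inertia (R := 𝓞 F) (S := 𝓞 H) F H (p := v.asIdeal) v.ne_bot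
  rw [h2] at hsum
  have hPm : P.asIdeal ∈ IsDedekindDomain.primesOverFinset v.asIdeal (𝓞 H) :=
    (IsDedekindDomain.mem_primesOverFinset_iff v.ne_bot _).mpr ⟨P.isPrime, inferInstance⟩
  have hfP : 0 < v.asIdeal.inertiaDeg' P.asIdeal := Ideal.inertiaDeg'_pos _ _
  have hle := Finset.single_le_sum
    (f := fun Q : Ideal (𝓞 H) => v.asIdeal.ramificationIdx' Q * v.asIdeal.inertiaDeg' Q)
    (fun _ _ => Nat.zero_le _) hPm
  rw [hsum] at hle
  have he2 : 2 ≤ v.asIdeal.ramificationIdx' P.asIdeal := by omega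
  refine ⟨by nlinarith, fun Q hQ hQv => ?_⟩
  by_contra hne
  have hQm : Q ∈ IsDedekindDomain.primesOverFinset v.asIdeal (𝓞 H) :=
    (IsDedekindDomain.mem_primesOverFinset_iff v.ne_bot _).mpr ⟨hQ, hQv⟩
  have hQ0 : v.asIdeal.ramificationIdx' Q ≠ 0 :=
    Ideal.IsDedekindDomain.ramificationIdx'_ne_zero_of_liesOver Q v.ne_bot
  have hfQ : 0 < v.asIdeal.inertiaDeg' Q := Ideal.inertiaDeg'_pos _ _
  have hsub : ({Q, P.asIdeal} : Finset (Ideal (𝓞 H))) ⊆ IsDedekindDomain.primesOverFinset v.asIdeal (𝓞 H) := by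
    intro R hR
    rcases Finset.mem_insert.1 hR with rfl | hR
    · exact hQm
    · rw [Finset.mem_singleton.1 hR]
      exact hPm
  have h3 := Finset.sum_le_sum_of_subset
    (f := fun Q : Ideal (𝓞 H) => v.asIdeal.ramificationIdx' Q * v.asIdeal.inertiaDeg' Q) hsub
  rw [Finset.sum_pair hne, hsum] at h3
  have h4 : 1 ≤ v.asIdeal.ramificationIdx' Q * v.asIdeal.inertiaDeg' Q :=
    Nat.one_le_iff_ne_zero.2 (mul_ne_zero hQ0 hfQ.ne')
  have h5 : 2 ≤ v.asIdeal.ramificationIdx' P.asIdeal * v.asIdeal.inertiaDeg' P.asIdeal := by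
    nlinarith
  omega

/-- the multiplicity of `P` in an ideal from below is even -/
theorem mult (P : HeightOneSpectrum (𝓞 H)) (v : HeightOneSpectrum (𝓞 F))
    [P.asIdeal.LiesOver v.asIdeal] (he : v.asIdeal.ramificationIdx' P.asIdeal = 2)
    {J : Ideal (𝓞 F)} (hJ : J ≠ ⊥) : ∃ k : ℕ,
      emultiplicity P.asIdeal (J.map (algebraMap (𝓞 F) (𝓞 H))) = ((2 * k : ℕ) : ℕ∞) ∧
      emultiplicity v.asIdeal J = (k : ℕ∞) := by
  classical
  have h1 := Ideal.IsDedekindDomain.emultiplicity_map_eq_ramificationIdx'_mul (S := 𝓞 H) hJ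
    v.irreducible P.irreducible P.ne_bot
  have h2 := (FiniteMultiplicity.of_prime_left v.prime hJ).emultiplicity_eq_multiplicity
  refine ⟨multiplicity v.asIdeal J, ?_, h2⟩
  rw [h1, h2, he]
  push_cast
  rfl

/-- `v` becomes the square of `P` -/
theorem map_sq (P : HeightOneSpectrum (𝓞 H)) (v : HeightOneSpectrum (𝓞 F))
    [P.asIdeal.LiesOver v.asIdeal] (he : v.asIdeal.ramificationIdx' P.asIdeal = 2)
    (hu : ∀ Q : Ideal (𝓞 H), Q.IsPrime → Q.LiesOver v.asIdeal → Q = P.asIdeal) :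
    v.asIdeal.map (algebraMap (𝓞 F) (𝓞 H)) = P.asIdeal ^ 2 := by
  obtain ⟨k, h1, h2⟩ := mult P v he v.ne_bot
  have hk : k = 1 := by
    rw [(FiniteMultiplicity.of_prime_left v.prime v.ne_bot).emultiplicity_self] at h2
    exact_mod_cast h2.symm
  subst hk
  obtain ⟨J, hJ⟩ := pow_dvd_of_le_emultiplicity (le_of_eq h1.symm : ((2 * 1 : ℕ) : ℕ∞) ≤ _)
  have hJ1 : J = ⊤ := by
    by_contra hJt
    obtain ⟨Q, hQ, hJQ⟩ := Ideal.exists_le_maximal J hJt
    have h3 : v.asIdeal.map (algebraMap (𝓞 F) (𝓞 H)) ≤ Q := by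
      rw [hJ]
      exact (Ideal.dvd_iff_le.1 (dvd_mul_left J _)).trans hJQ
    have h4 : v.asIdeal ≤ Q.comap (algebraMap (𝓞 F) (𝓞 H)) := Ideal.map_le_iff_le_comap.1 h3
    have hQp := hQ.isPrime
    have h5 : v.asIdeal = Q.comap (algebraMap (𝓞 F) (𝓞 H)) :=
      v.isMaximal.eq_of_le (Ideal.comap_ne_top _ hQ.ne_top) h4
    have h6 : Q = P.asIdeal := hu Q hQp ⟨h5⟩
    rw [h6] at hJQ
    have h7 : P.asIdeal ∣ J := Ideal.dvd_iff_le.2 hJQ
    have h8 : P.asIdeal ^ 3 ∣ v.asIdeal.map (algebraMap (𝓞 F) (𝓞 H)) := by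
      rw [hJ, pow_succ]
      exact mul_dvd_mul dvd_rfl h7
    have h9 := le_emultiplicity_of_pow_dvd h8
    rw [h1] at h9
    have h10 : (3 : ℕ) ≤ 2 * 1 := by exact_mod_cast h9
    omega
  rw [hJ, hJ1, Ideal.mul_top]

/-- descent -/
theorem descent (h2 : finrank F H = 2) (c : H ≃ₐ[F] H) (hc : c ≠ 1)
    (hU : ∀ u : (𝓞 H)ˣ, ((u : 𝓞 H) : H) * c ((u : 𝓞 H) : H) = 1 →
      ∃ v : (𝓞 H)ˣ, ((u : 𝓞 H) : H) = ((v : 𝓞 H) : H) / c ((v : 𝓞 H) : H))
    (x y : 𝓞 H) (hx : x ≠ 0) (hy : y ≠ 0)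
    (hxy : Associated (y * galRestrict (𝓞 F) F H (𝓞 H) c x)
      (x * galRestrict (𝓞 F) F H (𝓞 H) c y)) :
    ∃ (a b : 𝓞 F) (v : (𝓞 H)ˣ), a ≠ 0 ∧ b ≠ 0 ∧
      algebraMap (𝓞 F) (𝓞 H) b * x = algebraMap (𝓞 F) (𝓞 H) a * v * y := by
  obtain ⟨σ, hσσ, hfix, -, hall⟩ := exists_conj (M := F) (E := H) h2
  have hcσ : c = σ := (hall c).resolve_left hc
  rw [← hcσ] at hσσ hfix
  obtain ⟨u, hu⟩ := hxy
  have hx0 : (x : H) ≠ 0 := by exact_mod_cast hx
  have hy0 : (y : H) ≠ 0 := by exact_mod_cast hy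
  have hcx0 : c (x : H) ≠ 0 := by rwa [Ne, EmbeddingLike.map_eq_zero_iff]
  have hcy0 : c (y : H) ≠ 0 := by rwa [Ne, EmbeddingLike.map_eq_zero_iff]
  have hu' : (y : H) * c (x : H) * ((u : 𝓞 H) : H) = (x : H) * c (y : H) := by
    have h1 := congrArg (algebraMap (𝓞 H) H) hu
    rw [map_mul, map_mul, map_mul, algebraMap_galRestrict_apply, algebraMap_galRestrict_apply] at h1
    exact h1
  have hue : ((u : 𝓞 H) : H) = ((x : H) * c (y : H)) / ((y : H) * c (x : H)) := by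
    rw [eq_div_iff (mul_ne_zero hy0 hcx0), ← hu']
    ring
  obtain ⟨v, hv⟩ := hU u (by
    rw [hue, map_div₀, map_mul, map_mul, hσσ, hσσ]
    field_simp)
  have hv0 : ((v : 𝓞 H) : H) ≠ 0 := by
    have : (v : 𝓞 H) ≠ 0 := v.ne_zero
    exact_mod_cast this
  have hcv0 : c ((v : 𝓞 H) : H) ≠ 0 := by rwa [Ne, EmbeddingLike.map_eq_zero_iff]
  set z : H := (x : H) / (y : H) / ((v : 𝓞 H) : H) with hz
  have hcz : c z = z := by
    rw [hz, map_div₀, map_div₀]
    rw [hv] at hue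
    rw [div_eq_div_iff hcv0 (mul_ne_zero hy0 hcx0)] at hue
    rw [div_div, div_div, div_eq_div_iff (mul_ne_zero hcy0 hcv0) (mul_ne_zero hy0 hv0)]
    linear_combination hue
  obtain ⟨w, hw⟩ := (hfix z).1 hcz
  obtain ⟨a, b, hb, hab⟩ := IsFractionRing.div_surjective (A := 𝓞 F) w
  have hb0 : b ≠ 0 := nonZeroDivisors.ne_zero hb
  have hb0' : algebraMap F H (algebraMap (𝓞 F) F b) ≠ 0 := by
    have h1 : algebraMap (𝓞 F) F b ≠ 0 := by
      rw [Ne, FaithfulSMul.algebraMap_eq_zero_iff]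
      exact hb0
    rwa [Ne, map_eq_zero]
  have key : algebraMap F H (algebraMap (𝓞 F) F b) * (x : H) =
      algebraMap F H (algebraMap (𝓞 F) F a) * ((v : 𝓞 H) : H) * (y : H) := by
    have h1 : algebraMap F H (algebraMap (𝓞 F) F a) / algebraMap F H (algebraMap (𝓞 F) F b) =
        (x : H) / (y : H) / ((v : 𝓞 H) : H) := by
      rw [← map_div₀, hab, hw]
    rw [div_div, div_eq_div_iff hb0' (mul_ne_zero hy0 hv0)] at h1
    linear_combination - h1
  have key2 : algebraMap (𝓞 F) (𝓞 H) b * x = algebraMap (𝓞 F) (𝓞 H) a * v * y := by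
    apply FaithfulSMul.algebraMap_injective (𝓞 H) H
    rw [map_mul, map_mul, map_mul, ← IsScalarTower.algebraMap_apply,
      ← IsScalarTower.algebraMap_apply, IsScalarTower.algebraMap_apply (𝓞 F) F H,
      IsScalarTower.algebraMap_apply (𝓞 F) F H]
    exact key
  refine ⟨a, b, v, ?_, hb0, key2⟩
  rintro rfl
  rw [map_zero, zero_mul, zero_mul] at key2
  rcases mul_eq_zero.1 key2 with h | h
  · exact hb0 ((FaithfulSMul.algebraMap_eq_zero_iff (𝓞 F) (𝓞 H)).1 h)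
  · exact hx h

theorem map_c (c : H ≃ₐ[F] H) (I : Ideal (𝓞 F)) :
    (I.map (algebraMap (𝓞 F) (𝓞 H))).map (galRestrict (𝓞 F) F H (𝓞 H) c : 𝓞 H →+* 𝓞 H) =
      I.map (algebraMap (𝓞 F) (𝓞 H)) := by
  rw [Ideal.map_map]
  congr 1
  ext a
  exact congrArg _ ((galRestrict (𝓞 F) F H (𝓞 H) c).commutes a)

theorem span_c (c : H ≃ₐ[F] H) (x : 𝓞 H) :
    (Ideal.span {x}).map (galRestrict (𝓞 F) F H (𝓞 H) c : 𝓞 H →+* 𝓞 H) =
      Ideal.span {galRestrict (𝓞 F) F H (𝓞 H) c x} := by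
  rw [Ideal.map_span, Set.image_singleton]
  rfl

theorem map_P (c : H ≃ₐ[F] H) (P : HeightOneSpectrum (𝓞 H)) (v : HeightOneSpectrum (𝓞 F))
    [P.asIdeal.LiesOver v.asIdeal]
    (hu : ∀ Q : Ideal (𝓞 H), Q.IsPrime → Q.LiesOver v.asIdeal → Q = P.asIdeal) :
    P.asIdeal.map (galRestrict (𝓞 F) F H (𝓞 H) c : 𝓞 H →+* 𝓞 H) = P.asIdeal := by
  set e := (galRestrict (𝓞 F) F H (𝓞 H) c).toRingEquiv with he
  have h1 : P.asIdeal.map (galRestrict (𝓞 F) F H (𝓞 H) c : 𝓞 H →+* 𝓞 H) =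
      P.asIdeal.comap e.symm := (Ideal.comap_symm e).symm
  rw [h1]
  have hPp := P.isPrime
  apply hu
  · exact Ideal.comap_isPrime _ _
  · constructor
    have h2 : v.asIdeal = P.asIdeal.comap (algebraMap (𝓞 F) (𝓞 H)) :=
      (inferInstance : P.asIdeal.LiesOver v.asIdeal).over
    rw [h2]
    ext a
    show algebraMap (𝓞 F) (𝓞 H) a ∈ P.asIdeal ↔ e.symm (algebraMap (𝓞 F) (𝓞 H) a) ∈ P.asIdeal
    have h3 : e.symm (algebraMap (𝓞 F) (𝓞 H) a) = algebraMap (𝓞 F) (𝓞 H) a := by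
      rw [RingEquiv.symm_apply_eq]
      exact ((galRestrict (𝓞 F) F H (𝓞 H) c).commutes a).symm
    rw [h3]

/-- the common step: two ideals that differ by an element -/
theorem common (h2 : finrank F H = 2) (c : H ≃ₐ[F] H) (hc : c ≠ 1)
    (hU : ∀ u : (𝓞 H)ˣ, ((u : 𝓞 H) : H) * c ((u : 𝓞 H) : H) = 1 →
      ∃ v : (𝓞 H)ˣ, ((u : 𝓞 H) : H) = ((v : 𝓞 H) : H) / c ((v : 𝓞 H) : H))
    {I J : Ideal (𝓞 H)} (hI : I ≠ ⊥) (hJ : J ≠ ⊥)
    (hcI : I.map (galRestrict (𝓞 F) F H (𝓞 H) c : 𝓞 H →+* 𝓞 H) = I)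
    (hcJ : J.map (galRestrict (𝓞 F) F H (𝓞 H) c : 𝓞 H →+* 𝓞 H) = J)
    {x y : 𝓞 H} (hx : x ≠ 0) (hy : y ≠ 0)
    (h : Ideal.span {x} * I = Ideal.span {y} * J) :
    ∃ a b : 𝓞 F, a ≠ 0 ∧ b ≠ 0 ∧
      (Ideal.span {a}).map (algebraMap (𝓞 F) (𝓞 H)) * I =
        (Ideal.span {b}).map (algebraMap (𝓞 F) (𝓞 H)) * J := by
  set c' := galRestrict (𝓞 F) F H (𝓞 H) c with hc'
  have h1 := congrArg (Ideal.map (c' : 𝓞 H →+* 𝓞 H)) h
  rw [Ideal.map_mul, Ideal.map_mul, span_c, span_c, hcI, hcJ] at h1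
  have hIJ : I * J ≠ ⊥ := mul_ne_zero hI hJ
  have h3 : Ideal.span {y * c' x} = Ideal.span {x * c' y} := by
    have h4 : (I * J) * Ideal.span {y * c' x} = (I * J) * Ideal.span {x * c' y} := by
      rw [← Ideal.span_singleton_mul_span_singleton, ← Ideal.span_singleton_mul_span_singleton]
      calc I * J * (Ideal.span {y} * Ideal.span {c' x})
          = (Ideal.span {y} * J) * (Ideal.span {c' x} * I) := by ring
        _ = (Ideal.span {x} * I) * (Ideal.span {c' y} * J) := by rw [h, h1]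
        _ = _ := by ring
    exact mul_left_cancel₀ hIJ h4
  rw [Ideal.span_singleton_eq_span_singleton] at h3
  obtain ⟨a, b, v, ha, hb, hab⟩ := descent h2 c hc hU x y hx hy h3
  refine ⟨a, b, ha, hb, ?_⟩
  have hy' : Ideal.span {y} ≠ (⊥ : Ideal (𝓞 H)) := by
    rwa [Ne, Ideal.span_singleton_eq_bot]
  apply mul_left_cancel₀ hy'
  have h5 : Ideal.span {algebraMap (𝓞 F) (𝓞 H) b} * Ideal.span {x} =
      Ideal.span {algebraMap (𝓞 F) (𝓞 H) a} * Ideal.span {y} := by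
    rw [Ideal.span_singleton_mul_span_singleton, Ideal.span_singleton_mul_span_singleton, hab,
      Ideal.span_singleton_eq_span_singleton]
    exact ⟨v⁻¹, by
      rw [mul_right_comm, mul_assoc _ (v : 𝓞 H), mul_comm (v : 𝓞 H), mul_assoc]
      simp [mul_assoc]⟩
  rw [Ideal.map_span, Ideal.map_span, Set.image_singleton, Set.image_singleton]
  calc Ideal.span {y} * (Ideal.span {algebraMap (𝓞 F) (𝓞 H) a} * I)
      = (Ideal.span {algebraMap (𝓞 F) (𝓞 H) a} * Ideal.span {y}) * I := by ring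
    _ = Ideal.span {algebraMap (𝓞 F) (𝓞 H) b} * (Ideal.span {x} * I) := by rw [← h5]; ring
    _ = Ideal.span {y} * (Ideal.span {algebraMap (𝓞 F) (𝓞 H) b} * J) := by rw [h]; ring

/-- **GEN** -/
theorem s_GEN : S_GEN := by
  intro F H _ _ _ _ _ h2 c hc hU ⟨P, hP⟩
  obtain ⟨v, hv⟩ := b2_exists_under (M := F) P
  have hPv : P.asIdeal.LiesOver v.asIdeal := ⟨hv.symm⟩
  obtain ⟨he, hu⟩ := ram h2 P v hv hP
  have hsq := map_sq P v he hu
  have hmapne : ∀ {I : Ideal (𝓞 F)}, I ≠ ⊥ → I.map (algebraMap (𝓞 F) (𝓞 H)) ≠ ⊥ := by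
    intro I hI
    rwa [Ne, Ideal.map_eq_bot_iff_of_injective (FaithfulSMul.algebraMap_injective _ _)]
  set j := ClassGroup.extendedHom (𝓞 F) (𝓞 H) with hj
  -- injective
  have hinj : Function.Injective j := by
    rw [injective_iff_map_eq_one]
    intro C hC
    obtain ⟨I, rfl⟩ := ClassGroup.mk0_surjective C
    rw [hj, ClassGroup.extendedHom_mk0, ← map_one ClassGroup.mk0, ClassGroup.mk0_eq_mk0_iff] at hC
    obtain ⟨x, y, hx, hy, hxy⟩ := hC
    have hI0 : (I : Ideal (𝓞 F)) ≠ ⊥ := nonZeroDivisors.coe_ne_zero I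
    obtain ⟨a, b, ha, hb, hab⟩ := common h2 c hc hU (hmapne hI0)
      (show (((1 : (Ideal (𝓞 H))⁰) : Ideal (𝓞 H))) ≠ ⊥ from nonZeroDivisors.coe_ne_zero 1)
      (map_c c _) (by
        rw [Submonoid.coe_one, Ideal.one_eq_top, Ideal.map_top]) hx hy hxy
    rw [Submonoid.coe_one, mul_one, ← Ideal.map_mul] at hab
    have h3 := Ideal.map_injective_of_faithfullyFlat hab
    rw [← map_one ClassGroup.mk0, ClassGroup.mk0_eq_mk0_iff]
    exact ⟨a, b, ha, hb, by rw [h3, Submonoid.coe_one, mul_one]⟩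
  -- the class of P
  set p : ClassGroup (𝓞 H) := ClassGroup.mk0 ⟨P.asIdeal, mem_nonZeroDivisors_iff_ne_zero.2 P.ne_bot⟩
    with hp
  have hp2 : p ^ 2 ∈ j.range := by
    refine ⟨ClassGroup.mk0 ⟨v.asIdeal, mem_nonZeroDivisors_iff_ne_zero.2 v.ne_bot⟩, ?_⟩
    rw [hj, ClassGroup.extendedHom_mk0, hp, ← map_pow]
    congr 1
    exact Subtype.ext hsq
  have hpn : p ∉ j.range := by
    rintro ⟨C, hC⟩
    obtain ⟨I, rfl⟩ := ClassGroup.mk0_surjective C
    rw [hj, ClassGroup.extendedHom_mk0, hp, ClassGroup.mk0_eq_mk0_iff] at hC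
    obtain ⟨x, y, hx, hy, hxy⟩ := hC
    have hI0 : (I : Ideal (𝓞 F)) ≠ ⊥ := nonZeroDivisors.coe_ne_zero I
    obtain ⟨a, b, ha, hb, hab⟩ := common h2 c hc hU (hmapne hI0) P.ne_bot
      (map_c c _) (map_P c P v hu) hx hy hxy
    rw [← Ideal.map_mul] at hab
    have ha' : Ideal.span {a} ≠ (⊥ : Ideal (𝓞 F)) := by
      rwa [Ne, Ideal.span_singleton_eq_bot]
    have hb' : Ideal.span {b} ≠ (⊥ : Ideal (𝓞 F)) := by
      rwa [Ne, Ideal.span_singleton_eq_bot]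
    obtain ⟨k, hk, -⟩ := mult P v he (mul_ne_zero ha' hI0)
    obtain ⟨l, hl, -⟩ := mult P v he hb'
    have h4 := congrArg (emultiplicity P.asIdeal) hab
    rw [emultiplicity_mul P.prime, hl,
      (FiniteMultiplicity.of_prime_left P.prime P.ne_bot).emultiplicity_self] at h4
    have h5 := hk.symm.trans h4
    have h6 : 2 * k = 2 * l + 1 := by exact_mod_cast h5
    omega
  -- count
  have hcard : Nat.card j.range = classNumber F := by
    rw [← Nat.card_congr (MonoidHom.ofInjective hinj).toEquiv, Nat.card_eq_fintype_card]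
    rfl
  have hG : classNumber H = Nat.card (ClassGroup (𝓞 H)) := by
    rw [Nat.card_eq_fintype_card]
    rfl
  rw [hG, Subgroup.card_eq_card_quotient_mul_card_subgroup j.range, hcard]
  apply Nat.mul_dvd_mul_right
  have ho : orderOf (p : ClassGroup (𝓞 H) ⧸ j.range) = 2 := by
    apply orderOf_eq_prime
    · rw [← QuotientGroup.mk_pow, QuotientGroup.eq_one_iff]
      exact hp2
    · rw [Ne, QuotientGroup.eq_one_iff]
      exact hpn
  rw [← ho]
  exact orderOf_dvd_natCard _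

end Pool.Agent.L7h96.SQ
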